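import Mathlib

/-!
# MP_1e9cc8_nt, Q1: the thresholds specified in the k-fold Oppermann conjecture

The problem file says that the conjecture further specifies admissible thresholds `N(2) = 16`,
`N(3) = 36`, ... .  For ten of the thirteen listed values of `k` the listed number is not
admissible: the assertion fails at `n = N(k) + 1`.
-/

namespace Pool.Agent.Results.MP_1e9cc8_nt.ThresholdsNotAdmissible

/-- The number of primes in `[a, b]`. -/
def primesIn (a b : ℕ) : ℕ := ((Finset.Icc a b).filter Nat.Prime).card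

/-- `N` is an admissible threshold for `k`: for every `n > N` each of the intervals
`[n² - n, n²]` and `[n², n² + n]` contains at least `k` primes. -/
def Admissible (k N : ℕ) : Prop :=
  ∀ n : ℕ, N < n → k ≤ primesIn (n ^ 2 - n) (n ^ 2) ∧ k ≤ primesIn (n ^ 2) (n ^ 2 + n)

lemma primesIn_le (a b : ℕ) (L : List ℕ)
    (h : ∀ x ∈ Finset.Icc a b, x ∈ L ∨ ∃ d ∈ Finset.Icc 2 200, d < x ∧ x % d = 0) :
    primesIn a b ≤ L.length := by
  classical
  have h1 : (Finset.Icc a b).filter Nat.Prime ⊆ L.toFinset := by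
    intro x hx
    rw [Finset.mem_filter] at hx
    rw [List.mem_toFinset]
    rcases h x hx.1 with h2 | ⟨d, hd, hdx, hmod⟩
    · exact h2
    · exfalso
      rw [Finset.mem_Icc] at hd
      have h3 : d ∣ x := Nat.dvd_of_mod_eq_zero hmod
      rcases (Nat.dvd_prime hx.2).1 h3 with h4 | h4 <;> omega
  exact (Finset.card_le_card h1).trans (List.toFinset_card_le L)

lemma fails_2 : primesIn 289 306 ≤ 1 :=
  primesIn_le 289 306 [293] (by decide +kernel)

lemma fails_3 : primesIn 1332 1369 ≤ 2 :=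
  primesIn_le 1332 1369 [1361, 1367] (by decide +kernel)

lemma fails_4 : primesIn 2162 2209 ≤ 3 :=
  primesIn_le 2162 2209 [2179, 2203, 2207] (by decide +kernel)

lemma fails_5 : primesIn 5929 6006 ≤ 4 :=
  primesIn_le 5929 6006 [5939, 5953, 5981, 5987] (by decide +kernel)

lemma fails_7 : primesIn 6400 6480 ≤ 6 :=
  primesIn_le 6400 6480 [6421, 6427, 6449, 6451, 6469, 6473] (by decide +kernel)

lemma fails_8 : primesIn 7310 7396 ≤ 7 :=
  primesIn_le 7310 7396 [7321, 7331, 7333, 7349, 7351, 7369, 7393] (by decide +kernel)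

lemma fails_9 : primesIn 14161 14280 ≤ 8 :=
  primesIn_le 14161 14280 [14173, 14177, 14197, 14207, 14221, 14243, 14249, 14251] (by decide +kernel)

lemma fails_10 : primesIn 18769 18906 ≤ 9 :=
  primesIn_le 18769 18906 [18773, 18787, 18793, 18797, 18803, 18839, 18859, 18869, 18899] (by decide +kernel)

lemma fails_12 : primesIn 24180 24336 ≤ 11 :=
  primesIn_le 24180 24336 [24181, 24197, 24203, 24223, 24229, 24239, 24247, 24251, 24281, 24317, 24329] (by decide +kernel)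

lemma fails_13 : primesIn 35532 35721 ≤ 12 :=
  primesIn_le 35532 35721 [35533, 35537, 35543, 35569, 35573, 35591, 35593, 35597, 35603, 35617, 35671, 35677] (by decide +kernel)

/-- None of the listed thresholds for `k = 2, 3, 4, 5, 7, 8, 9, 10, 12, 13` is admissible; in
each case one of the two intervals for `n = N(k) + 1` contains at most `k - 1` primes. -/
theorem result :
    (¬ Admissible 2 16 ∧ ¬ Admissible 3 36 ∧ ¬ Admissible 4 46 ∧ ¬ Admissible 5 76 ∧
      ¬ Admissible 7 79 ∧ ¬ Admissible 8 85 ∧ ¬ Admissible 9 118 ∧ ¬ Admissible 10 136 ∧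
      ¬ Admissible 12 155 ∧ ¬ Admissible 13 188) ∧
    (primesIn (17 ^ 2) (17 ^ 2 + 17) < 2 ∧ primesIn (37 ^ 2 - 37) (37 ^ 2) < 3 ∧
      primesIn (47 ^ 2 - 47) (47 ^ 2) < 4 ∧ primesIn (77 ^ 2) (77 ^ 2 + 77) < 5 ∧
      primesIn (80 ^ 2) (80 ^ 2 + 80) < 7 ∧ primesIn (86 ^ 2 - 86) (86 ^ 2) < 8 ∧
      primesIn (119 ^ 2) (119 ^ 2 + 119) < 9 ∧ primesIn (137 ^ 2) (137 ^ 2 + 137) < 10 ∧
      primesIn (156 ^ 2 - 156) (156 ^ 2) < 12 ∧ primesIn (189 ^ 2 - 189) (189 ^ 2) < 13) := by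
  have h2 : primesIn (17 ^ 2) (17 ^ 2 + 17) < 2 := Nat.lt_of_le_of_lt fails_2 (by norm_num)
  have h3 : primesIn (37 ^ 2 - 37) (37 ^ 2) < 3 := Nat.lt_of_le_of_lt fails_3 (by norm_num)
  have h4 : primesIn (47 ^ 2 - 47) (47 ^ 2) < 4 := Nat.lt_of_le_of_lt fails_4 (by norm_num)
  have h5 : primesIn (77 ^ 2) (77 ^ 2 + 77) < 5 := Nat.lt_of_le_of_lt fails_5 (by norm_num)
  have h7 : primesIn (80 ^ 2) (80 ^ 2 + 80) < 7 := Nat.lt_of_le_of_lt fails_7 (by norm_num)
  have h8 : primesIn (86 ^ 2 - 86) (86 ^ 2) < 8 := Nat.lt_of_le_of_lt fails_8 (by norm_num)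
  have h9 : primesIn (119 ^ 2) (119 ^ 2 + 119) < 9 := Nat.lt_of_le_of_lt fails_9 (by norm_num)
  have h10 : primesIn (137 ^ 2) (137 ^ 2 + 137) < 10 := Nat.lt_of_le_of_lt fails_10 (by norm_num)
  have h12 : primesIn (156 ^ 2 - 156) (156 ^ 2) < 12 := Nat.lt_of_le_of_lt fails_12 (by norm_num)
  have h13 : primesIn (189 ^ 2 - 189) (189 ^ 2) < 13 := Nat.lt_of_le_of_lt fails_13 (by norm_num)
  refine ⟨⟨?_, ?_, ?_, ?_, ?_, ?_, ?_, ?_, ?_, ?_⟩,
    h2, h3, h4, h5, h7, h8, h9, h10, h12, h13⟩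
  · exact fun h => absurd (h 17 (by norm_num)).2 (Nat.not_le.2 h2)
  · exact fun h => absurd (h 37 (by norm_num)).1 (Nat.not_le.2 h3)
  · exact fun h => absurd (h 47 (by norm_num)).1 (Nat.not_le.2 h4)
  · exact fun h => absurd (h 77 (by norm_num)).2 (Nat.not_le.2 h5)
  · exact fun h => absurd (h 80 (by norm_num)).2 (Nat.not_le.2 h7)
  · exact fun h => absurd (h 86 (by norm_num)).1 (Nat.not_le.2 h8)
  · exact fun h => absurd (h 119 (by norm_num)).2 (Nat.not_le.2 h9)
  · exact fun h => absurd (h 137 (by norm_num)).2 (Nat.not_le.2 h10)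
  · exact fun h => absurd (h 156 (by norm_num)).1 (Nat.not_le.2 h12)
  · exact fun h => absurd (h 189 (by norm_num)).1 (Nat.not_le.2 h13)

end Pool.Agent.Results.MP_1e9cc8_nt.ThresholdsNotAdmissible
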